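import Pool.Agent.Results.MP_e49dc9_ag.MinimalAmpleClasses
import Pool.Agent.Helper63.Mc.Nec

/-!
# MP_e49dc9_ag: the cone conjecture is a condition on the boundary classes which are not conical

Let `Y` be a smooth projective variety with `K_Y ≡ 0`. This file contains a criterion in the style of
the theorem of Beardon and Maskit (a discrete group of motions of the hyperbolic space is geometrically
finite if and only if every limit point is conical or a bounded parabolic point) for the existence of a
rational polyhedral fundamental domain of `Aut(Y)` on `Nef(Y)^+`.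

* A class `D` in the boundary of `Nef(Y)` is *conical* if there are automorphisms `f` and small `s > 0`
  such that the classes `f^* (D + s A)` are, up to scaling, in a compact set of ample classes.
* A *contraction face* is a face `≠ 0` of `Nef(Y)` which is cut out by an integral element `ζ` of the cone of
  curves and spanned by integral nef classes `R`. If `Y → Z` is a contraction this is the pull-back of
  `Nef(Z)`, where `ζ` is the sum of enough contracted curves. Its *relative domain* condition says:
  modulo the pull-back of `N^1(Z)`, the ample cone is covered by the translates of the image of one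
  rational polyhedral cone under the automorphisms which fix the face. This is a form of the relative
  cone conjecture for `Y → Z`.
* `D` is *locally covered* if the ample classes near `D` are in the translates of one rational polyhedral
  cone. For instance this holds for all nef classes `D` with `D ^ dim Y > 0` (Kawamata: the nef cone is
  locally rational polyhedral at the big classes).

The theorem says: `Aut(Y)` has a rational polyhedral fundamental domain on `Nef(Y)^+` if and only if
all contraction faces satisfy the relative domain condition, and every other boundary class (which is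
not in the relative interior of a contraction face) is conical or locally covered. So one has to
consider only the nef classes `D` with `D ^ dim Y = 0`: for those which come from fibrations the
condition is relative to the fibration, and the others are only relevant if they are not conical.
With all integral nef classes effective this is the statement of Q1 (see `MinimalAmpleClasses`).
-/

set_option autoImplicit false

namespace Pool.Agent.Results.MP_e49dc9_ag.BoundaryClasses

open Pool.Agent.Y167 Pool.Agent.Results.MP_e49dc9_ag.MinimalAmpleClasses Matrix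

variable (Y : KTrivial)

/-- The class `D` is a conical limit class of `Aut(Y)`: there are an ample real class `A`, a compact set
`K` of ample real classes, arbitrarily small `s > 0` and automorphisms `f` such that `f^* (D + s A)` is
a multiple of an element of `K`. -/
def ConicalClass (D : Fin Y.ρ → ℝ) : Prop :=
  ∃ A ∈ interior Y.Nef, ∃ K : Set (Fin Y.ρ → ℝ), IsCompact K ∧ K ⊆ interior Y.Nef ∧
    ∀ ε : ℝ, 0 < ε → ∃ s : ℝ, 0 < s ∧ s < ε ∧ ∃ f : Y.Aut, ∃ k ∈ K, ∃ t : ℝ, 0 < t ∧
      Y.pull f (D + s • A) = t • k

/-- The integral nef classes in `R`, which are not all `0`, span the face of `Nef(Y)` which is cut out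
by the integral element `ζ` of the cone of curves. -/
structure ContractionFace (R : Finset (Fin Y.ρ → ℝ)) (ζ : Fin Y.ρ → ℝ) : Prop where
  ne : ∃ r ∈ R, r ≠ 0
  nef : ∀ r ∈ R, Integral r ∧ r ∈ Y.Nef
  curve : Integral ζ ∧ ζ ∈ Curves Y
  zero : ∀ r ∈ R, r ⬝ᵥ ζ = 0
  face : ∀ N ∈ Y.Nef, N ⬝ᵥ ζ = 0 → N ∈ Submodule.span ℝ (R : Set (Fin Y.ρ → ℝ))

/-- `D` is in the relative interior of the cone generated by `R`. -/
def RelInterior {ρ : ℕ} (R : Finset (Fin ρ → ℝ)) (D : Fin ρ → ℝ) : Prop :=
  ∃ c : (Fin ρ → ℝ) → ℝ, (∀ r ∈ R, 0 < c r) ∧ D = ∑ r ∈ R, c r • r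

/-- Modulo the span of `R`, the ample cone is covered by the translates of the image of a rational
polyhedral cone of nef classes under the automorphisms which fix the elements of `R`. -/
def RelativeDomain (R : Finset (Fin Y.ρ → ℝ)) : Prop :=
  ∃ S : Finset (Fin Y.ρ → ℝ), (∀ s ∈ S, Integral s ∧ s ∈ Y.Nef) ∧
    ∀ A ∈ interior Y.Nef, ∃ f : Y.Aut, (∀ r ∈ R, Y.pull f r = r) ∧
      ∃ B ∈ cone S, Y.pull f A - B ∈ Submodule.span ℝ (R : Set (Fin Y.ρ → ℝ))

/-- The ample classes near `D` are covered by the translates of a rational polyhedral cone of nef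
classes. -/
def LocallyCovered (D : Fin Y.ρ → ℝ) : Prop :=
  ∃ (δ : ℝ) (S : Finset (Fin Y.ρ → ℝ)), 0 < δ ∧ (∀ s ∈ S, Integral s ∧ s ∈ Y.Nef) ∧
    ∀ A ∈ interior Y.Nef, ‖A - D‖ < δ → ∃ f : Y.Aut, Y.pull f A ∈ cone S

/-- **The criterion.** Let `Y` be a smooth projective variety with `K_Y ≡ 0`.

(1) `Aut(Y)` has a rational polyhedral fundamental domain on `Nef(Y)^+` if and only if all contraction
faces satisfy the relative domain condition, and all nonzero nef classes which are not ample and not in
the relative interior of a contraction face are conical or locally covered.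

(2) In this case the relative domain condition holds for all finite sets `R` of integral nef classes. -/
theorem result (Y : KTrivial) :
    (HasDomain Y (Plus Y.Nef) ↔
      (∀ R ζ, ContractionFace Y R ζ → RelativeDomain Y R) ∧
      ∀ D ∈ Y.Nef, D ≠ 0 → D ∉ interior Y.Nef →
        (∀ R ζ, ContractionFace Y R ζ → ¬ RelInterior R D) →
        ConicalClass Y D ∨ LocallyCovered Y D) ∧
    (HasDomain Y (Plus Y.Nef) →
      ∀ R : Finset (Fin Y.ρ → ℝ), (∀ r ∈ R, Integral r ∧ r ∈ Y.Nef) → RelativeDomain Y R) := by
  have hcov : HasDomain Y (Plus Y.Nef) ↔ Pool.Agent.Helper63.Mc.Cov Y.Nef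
      (Pool.Agent.N165.KM.rangeSub (pb_mul (Y := Y))) := by
    rw [hasDomain_iff, plus_eq, Pool.Agent.Helper63.Mc.hasFD_plus_iff proper pb_mul pb_int pb_nef]
  have hnec : HasDomain Y (Plus Y.Nef) →
      ∀ R : Finset (Fin Y.ρ → ℝ), (∀ r ∈ R, Integral r ∧ r ∈ Y.Nef) → RelativeDomain Y R := by
    intro hd R hR
    obtain ⟨S, hS, hSc⟩ := Pool.Agent.Helper63.Mc.relCov_of_cov proper acts (hcov.1 hd) hR
    refine ⟨S, hS, fun A hA => ?_⟩
    obtain ⟨_, ⟨f, rfl⟩, hf, σ, hσ, hfσ⟩ := hSc A hA
    exact ⟨f, hf, σ, hσ, hfσ⟩
  refine ⟨⟨fun hd => ⟨fun R ζ hR => hnec hd R hR.nef, ?_⟩, ?_⟩, hnec⟩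
  · intro D _ _ _ _
    obtain ⟨S, hS, hSc⟩ := hcov.1 hd
    refine Or.inr ⟨1, S, one_pos, hS, fun A hA _ => ?_⟩
    obtain ⟨_, ⟨f, rfl⟩, hf⟩ := hSc A hA
    exact ⟨f, hf⟩
  · rintro ⟨hrel, hloc⟩
    rw [hcov]
    refine Pool.Agent.Helper63.Mc.cov_of_local proper acts fun D hD hD0 hDi => ?_
    by_cases hface : ∃ R ζ, ContractionFace Y R ζ ∧ RelInterior R D
    · obtain ⟨R, ζ, hR, c, hc, hDc⟩ := hface
      obtain ⟨S, hS, hSc⟩ := hrel R ζ hR
      refine Or.inr (Or.inl ⟨R, S, c, ζ, hR.nef, hc, hDc, hR.curve.1, hR.curve.2, hR.zero, hR.face,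
        hS, fun x hx => ?_⟩)
      obtain ⟨f, hf, B, hB, hfB⟩ := hSc x hx
      exact ⟨pb f, ⟨f, rfl⟩, hf, B, hB, hfB⟩
    · push Not at hface
      rcases hloc D hD hD0 hDi hface with ⟨A, hA, K, hK, hKC, hcon⟩ | ⟨δ, S, hδ, hS, hSc⟩
      · refine Or.inl ⟨A, hA, K, hK, hKC, fun ε hε => ?_⟩
        obtain ⟨s, hs, hsε, f, k, hk, t, ht, he⟩ := hcon ε hε
        exact ⟨s, hs, hsε, pb f, ⟨f, rfl⟩, k, hk, t, ht, he⟩
      · refine Or.inr (Or.inr ⟨δ, S, hδ, hS, fun x hx hxD => ?_⟩)
        obtain ⟨f, hf⟩ := hSc x hx hxD
        exact ⟨pb f, ⟨f, rfl⟩, hf⟩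

end Pool.Agent.Results.MP_e49dc9_ag.BoundaryClasses
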