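import Pool.Agent.Results.MP_e49dc9_ag.BoundaryClasses
import Pool.Agent.Helper63.Mc.Cocpt

/-!
# MP_e49dc9_ag: cocompact actions on the ample cone

Let `Y` be a smooth projective variety with `K_Y ≡ 0`. Suppose that every nonzero integral nef class of
`Y` is ample. Then all nef classes of `Nef(Y)^+` are effective, and the statement of Q1 for `Y` is
that `Aut(Y)` has a rational polyhedral fundamental domain on `Nef(Y)^+ = Amp(Y) ∪ {0}`. We show that
the following are equivalent:

* `Aut(Y)` acts cocompactly on the projectivisation of the ample cone;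
* every nonzero nef class which is not ample is conical (see `BoundaryClasses`): there are automorphisms
  `f` and small `s > 0` such that the classes `f^* (D + s A)` are, up to scaling, in a compact set of
  ample classes;
* the statement of Q1 holds for `Y`, and every nonzero integral nef class is ample.

This is the analogue of the theorem that a discrete group of hyperbolic motions is convex cocompact if
and only if all its limit points are conical. In particular the conicality of all boundary classes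
implies that they are not rational. The definitions of the numerical data are in
`MinimalAmpleClasses`.
-/

set_option autoImplicit false

namespace Pool.Agent.Results.MP_e49dc9_ag.CocompactAction

open Pool.Agent.Y167 Pool.Agent.Results.MP_e49dc9_ag.MinimalAmpleClasses
  Pool.Agent.Results.MP_e49dc9_ag.BoundaryClasses Matrix

variable (Y : KTrivial)

/-- `Aut(Y)` acts cocompactly on the projectivisation of the ample cone. -/
def ActsCocompactly : Prop :=
  ∃ K : Set (Fin Y.ρ → ℝ), IsCompact K ∧ K ⊆ interior Y.Nef ∧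
    ∀ A ∈ interior Y.Nef, ∃ f : Y.Aut, ∃ k ∈ K, ∃ t : ℝ, 0 < t ∧ Y.pull f A = t • k

/-- **Cocompact actions.** The group `Aut(Y)` acts cocompactly on the projectivisation of the ample
cone, if and only if every nonzero nef class which is not ample is conical, if and only if the
statement of Q1 holds for `Y` and every nonzero integral nef class is ample. -/
theorem result (Y : KTrivial) :
    [ActsCocompactly Y,
      ∀ D ∈ Y.Nef, D ≠ 0 → D ∉ interior Y.Nef → ConicalClass Y D,
      ConeConjecture Y ∧ ∀ D ∈ Y.Nef, Integral D → D ≠ 0 → D ∈ interior Y.Nef].TFAE := by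
  have hK : ActsCocompactly Y ↔ Pool.Agent.Helper63.Mc.Cocompact Y.Nef
      (Pool.Agent.N165.KM.rangeSub (pb_mul (Y := Y))) := by
    constructor
    · rintro ⟨K, h1, h2, h3⟩
      refine ⟨K, h1, h2, fun x hx => ?_⟩
      obtain ⟨f, k, hk, t, ht, he⟩ := h3 x hx
      exact ⟨pb f, ⟨f, rfl⟩, k, hk, t, ht, he⟩
    · rintro ⟨K, h1, h2, h3⟩
      refine ⟨K, h1, h2, fun x hx => ?_⟩
      obtain ⟨_, ⟨f, rfl⟩, k, hk, t, ht, he⟩ := h3 x hx
      exact ⟨f, k, hk, t, ht, he⟩
  have hcon : ∀ D, ConicalClass Y D ↔ Pool.Agent.Helper63.Mc.Conical Y.Nef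
      (Pool.Agent.N165.KM.rangeSub (pb_mul (Y := Y))) D := by
    intro D
    constructor
    · rintro ⟨A, hA, K, hK, hKC, hcon⟩
      refine ⟨A, hA, K, hK, hKC, fun ε hε => ?_⟩
      obtain ⟨s, hs, hsε, f, k, hk, t, ht, he⟩ := hcon ε hε
      exact ⟨s, hs, hsε, pb f, ⟨f, rfl⟩, k, hk, t, ht, he⟩
    · rintro ⟨A, hA, K, hK, hKC, hcon⟩
      refine ⟨A, hA, K, hK, hKC, fun ε hε => ?_⟩
      obtain ⟨s, hs, hsε, _, ⟨f, rfl⟩, k, hk, t, ht, he⟩ := hcon ε hε
      exact ⟨s, hs, hsε, f, k, hk, t, ht, he⟩
  have hM := MinimalAmpleClasses.result Y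
  have h12 : HasDomain Y (Plus Y.Nef) ↔ FiniteMinimalAmple Y := hM.1.out 0 1
  have hcov : HasDomain Y (Plus Y.Nef) ↔ Pool.Agent.Helper63.Mc.Cov Y.Nef
      (Pool.Agent.N165.KM.rangeSub (pb_mul (Y := Y))) := by
    rw [hasDomain_iff, plus_eq, Pool.Agent.Helper63.Mc.hasFD_plus_iff proper pb_mul pb_int pb_nef]
  tfae_have 1 → 2 := fun h1 D hD _ _ =>
    (hcon D).2 (Pool.Agent.Helper63.Mc.conical_of_cocompact proper (hK.1 h1) hD)
  tfae_have 2 → 1 := fun h2 => hK.2 (Pool.Agent.Helper63.Mc.cocompact_of_conical proper acts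
    fun D hD hD0 hDi => (hcon D).1 (h2 D hD hD0 hDi))
  tfae_have 1 → 3 := by
    intro h1
    have hc := hK.1 h1
    have hint : ∀ D ∈ Y.Nef, Integral D → D ≠ 0 → D ∈ interior Y.Nef := fun D hD hDi hD0 =>
      Pool.Agent.Helper63.Mc.no_int_boundary proper acts hc hD hDi hD0
    refine ⟨hM.2.1.2 ⟨?_, h12.1 (hcov.2 (Pool.Agent.Helper63.Mc.cov_of_cocompact proper acts hc))⟩,
      hint⟩
    intro D hD hDi
    by_cases h0 : D = 0
    · obtain ⟨A, hA⟩ := Y.nef.int
      have := Y.eff.smul 0 le_rfl A (Y.ample_eff hA)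
      rw [zero_smul] at this
      rw [h0]; exact this
    · exact Y.ample_eff (hint D hD hDi h0)
  tfae_have 3 → 1 := by
    rintro ⟨h3, hint⟩
    exact hK.2 (Pool.Agent.Helper63.Mc.cocompact_of_cov proper
      (hcov.1 (h12.2 (hM.2.1.1 h3).2)) fun v hv hvL hv0 => hint v hv hvL hv0)
  tfae_finish

end Pool.Agent.Results.MP_e49dc9_ag.CocompactAction
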