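import Pool.Agent.Results.MP_e49dc9_ag.MinimalAmpleClasses
import Pool.Agent.Helper63.Mc.Cox

/-!
# MP_e49dc9_ag: the cone conjecture and the Cox ring

Let `Y` be a Calabi-Yau variety with `Pic(Y) = N^1(Y)_ℤ` (for instance simply connected, with torsion
free second cohomology) and let `R = ⨁ H⁰(Y, D)`, over all classes `D`, be its Cox ring. Mori dream
spaces are the varieties whose Cox rings are finitely generated (Hu, Keel); the Cox ring of `Y` is not
finitely generated if `Aut(Y)` is infinite. We show that the cone conjecture for `Y` is a condition of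
finite generation up to automorphisms, not of the ring but of the ideal of the sections of ample
divisors: if the classes in `Nef(Y)` are semiample, then the statement of Q1 for `Y` holds if and only
if there are finitely many sections of ample divisors such that every section of an ample divisor is a
sum of products of sections of nef divisors with images of these sections under automorphisms. Without
the assumption of semiampleness, this condition of finite generation implies that `Aut(Y)` has a
rational polyhedral fundamental domain on `Nef(Y)^+`.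

(The finite generation of the nef part of the ring up to automorphisms would not be sufficient for such
an equivalence: there are groups without rational polyhedral fundamental domain for which the monoid of
the integral points of the cone is generated by finitely many orbits.)

The definitions of `KTrivial` (the numerical data of `Y`), `HasDomain`, `Plus`, `ConeConjecture` are in
the file `MinimalAmpleClasses`. The proof uses the theorem of that file.
-/

set_option autoImplicit false

namespace Pool.Agent.Results.MP_e49dc9_ag.CoxRingCriterion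

open Pool.Agent.Y167 Pool.Agent.Results.MP_e49dc9_ag.MinimalAmpleClasses

/-- The real vector of an integral class. -/
def real {ρ : ℕ} (D : Fin ρ → ℤ) : Fin ρ → ℝ := fun i => (D i : ℝ)

variable (Y : KTrivial) {R : Type} [CommRing R] [Algebra ℂ R]
  (𝒜 : (Fin Y.ρ → ℤ) → Submodule ℂ R)

/-- The automorphism `φ` of the ring covers the automorphism `f` of `Y`: it maps the sections of `D`
to the sections of `f^* D`. -/
def Covers (f : Y.Aut) (φ : R ≃ₐ[ℂ] R) : Prop :=
  ∀ D D' : Fin Y.ρ → ℤ, real D' = Y.pull f (real D) → ∀ s, s ∈ 𝒜 D ↔ φ s ∈ 𝒜 D'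

/-- `R = ⨁ H⁰(Y, D)` is the Cox ring of `Y`, where `Pic(Y) = N^1(Y)_ℤ = ℤ^ρ`: every automorphism of `Y`
lifts to `R`, the ample classes have sections, and the effective cone is generated by the classes
which have sections. -/
structure IsCoxRing : Prop where
  lift : ∀ f : Y.Aut, ∃ φ : R ≃ₐ[ℂ] R, Covers Y 𝒜 f φ
  ample : ∀ D, real D ∈ interior Y.Nef → 𝒜 D ≠ ⊥
  eff : Y.Eff = {x | ∃ S : Finset (Fin Y.ρ → ℝ), (∀ s ∈ S, ∃ D, s = real D ∧ 𝒜 D ≠ ⊥) ∧ x ∈ cone S}

/-- Two consequences of the semiampleness of the nef classes (the abundance conjecture for `Y`): a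
multiple of an integral nef class has a section, and the sum of the spaces of sections of the integral
classes in a rational polyhedral cone of nef classes is a finitely generated algebra (Zariski). -/
structure NefSemiample : Prop where
  section_mul : ∀ D, real D ∈ Y.Nef → ∃ m : ℕ, 0 < m ∧ 𝒜 (m • D) ≠ ⊥
  finite : ∀ S : Finset (Fin Y.ρ → ℝ), (∀ s ∈ S, s ∈ Y.Nef ∧ ∃ D, s = real D) →
    (Algebra.adjoin ℂ (⋃ D ∈ {D | real D ∈ cone S}, (𝒜 D : Set R))).FG

/-- The ample ideal, the sum of the spaces of sections of the ample classes, is generated, as a module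
over the sum of the spaces of sections of the nef classes, by finitely many orbits of automorphisms:
there are finitely many sections `g` of ample classes such that every section of an ample class is a
sum of products `r * φ g`, where `r` is a section of a nef class and `φ` covers an automorphism of
`Y`. -/
def AmpleIdealFinite : Prop :=
  ∃ G : Finset R, (∀ g ∈ G, ∃ D, real D ∈ interior Y.Nef ∧ g ∈ 𝒜 D) ∧
    ∀ D, real D ∈ interior Y.Nef → ∀ s ∈ 𝒜 D, s ∈ Submodule.span ℂ {x | ∃ g ∈ G, ∃ f φ,
      Covers Y 𝒜 f φ ∧ ∃ N, real N ∈ Y.Nef ∧ ∃ r ∈ 𝒜 N, x = r * φ g}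

variable {Y} {𝒜}

theorem real_add {ρ : ℕ} (D D' : Fin ρ → ℤ) : real (D + D') = real D + real D' := by
  ext i; simp [real]

theorem real_injective {ρ : ℕ} : Function.Injective (real (ρ := ρ)) := by
  intro D D' h
  ext i
  have := congrFun h i
  simpa [real] using this

theorem integral_real {ρ : ℕ} (D : Fin ρ → ℤ) : Integral (real D) := fun i => ⟨D i, rfl⟩

theorem exists_real {ρ : ℕ} {x : Fin ρ → ℝ} (h : Integral x) : ∃ D, real D = x := by
  choose D hD using h
  exact ⟨D, funext fun i => (hD i).symm⟩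

theorem pull_ample (f : Y.Aut) {x : Fin Y.ρ → ℝ} (hx : x ∈ interior Y.Nef) :
    Y.pull f x ∈ interior Y.Nef :=
  (acts (Y := Y)).interior ⟨f, rfl⟩ hx

theorem pull_inv_pull (f : Y.Aut) (x : Fin Y.ρ → ℝ) : Y.pull f⁻¹ (Y.pull f x) = x := by
  rw [← Y.action.mul, mul_inv_cancel, Y.action.one]

theorem pull_pull_inv (f : Y.Aut) (x : Fin Y.ρ → ℝ) : Y.pull f (Y.pull f⁻¹ x) = x := by
  rw [← Y.action.mul, inv_mul_cancel, Y.action.one]

theorem Covers.symm {f : Y.Aut} {φ : R ≃ₐ[ℂ] R} (h : Covers Y 𝒜 f⁻¹ φ) : Covers Y 𝒜 f φ.symm := by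
  intro D D' hD s
  have h1 : real D = Y.pull f⁻¹ (real D') := by rw [hD, pull_inv_pull]
  have h2 := h D' D h1 (φ.symm s)
  rw [AlgEquiv.apply_symm_apply] at h2
  exact h2.symm

/-- Finite generation of the ample ideal implies the finiteness of the minimal ample classes. -/
theorem finiteMinimalAmple [GradedAlgebra 𝒜] (h : IsCoxRing Y 𝒜) (hfin : AmpleIdealFinite Y 𝒜) :
    FiniteMinimalAmple Y := by
  classical
  obtain ⟨G, hG, hgen⟩ := hfin
  choose! deg hdeg hdegm using hG
  refine ⟨G.image fun g => real (deg g), fun x hx => ?_⟩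
  obtain ⟨D, rfl⟩ := exists_real hx.1.1
  obtain ⟨s, hs, hs0⟩ := (Submodule.ne_bot_iff _).1 (h.ample D hx.1.2)
  have hspan := hgen D hx.1.2 s hs
  -- a term with a nonzero component
  obtain ⟨x, hxX, hx0⟩ : ∃ x ∈ {x | ∃ g ∈ G, ∃ f φ, Covers Y 𝒜 f φ ∧ ∃ N, real N ∈ Y.Nef ∧
      ∃ r ∈ 𝒜 N, x = r * φ g}, (DirectSum.decompose 𝒜 x D : R) ≠ 0 := by
    by_contra hcon
    push Not at hcon
    have h1 : ∀ y ∈ Submodule.span ℂ {x | ∃ g ∈ G, ∃ f φ, Covers Y 𝒜 f φ ∧ ∃ N, real N ∈ Y.Nef ∧
      ∃ r ∈ 𝒜 N, x = r * φ g}, (DirectSum.decompose 𝒜 y D : R) = 0 := by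
      intro y hy
      induction hy using Submodule.span_induction with
      | mem y hy => exact hcon y hy
      | zero => simp
      | add a b _ _ ha hb => simp [ha, hb]
      | smul c a _ ha =>
        rw [DirectSum.decompose_smul, DirectSum.smul_apply, Submodule.coe_smul, ha, smul_zero]
    have h2 := h1 s hspan
    rw [DirectSum.decompose_of_mem_same 𝒜 hs] at h2
    exact hs0 h2
  obtain ⟨g, hg, f, φ, hφ, N, hN, r, hr, rfl⟩ := hxX
  obtain ⟨D', hD'⟩ := exists_real (Y.action.int f (real (deg g)) (integral_real _))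
  have h1 : φ g ∈ 𝒜 D' := (hφ (deg g) D' hD' g).1 (hdegm g hg)
  have h2 : r * φ g ∈ 𝒜 (N + D') := SetLike.mul_mem_graded hr h1
  have h3 : N + D' = D := by
    by_contra hne
    exact hx0 (DirectSum.decompose_of_mem_ne 𝒜 h2 hne)
  have h4 : Ample Y (real D') := ⟨integral_real _, by rw [hD']; exact pull_ample f (hdeg g hg)⟩
  have h5 := hx.2 (real D') (real N) h4 (integral_real _) hN (by rw [← h3, real_add, add_comm])
  have h6 : real D = real D' := by rw [← h3, real_add, h5, zero_add]
  refine ⟨f⁻¹, ?_⟩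
  rw [h6, hD', pull_inv_pull]
  exact Finset.mem_image_of_mem _ hg

/-- The fundamental domain and the finite generation of the section rings of rational polyhedral
cones imply the finite generation of the ample ideal. -/
theorem ampleIdealFinite [GradedAlgebra 𝒜] (h : IsCoxRing Y 𝒜) (hs : NefSemiample Y 𝒜)
    (hd : HasDomain Y (Plus Y.Nef)) : AmpleIdealFinite Y 𝒜 := by
  classical
  obtain ⟨S, hSi, hS, -⟩ := hd
  have hSnef : ∀ s ∈ S, s ∈ Y.Nef := by
    intro s hs
    have h1 : s ∈ Plus Y.Nef := by
      rw [hS]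
      simp only [Set.mem_iUnion, Set.mem_image]
      exact ⟨1, s, mem_cone_self hs, Y.action.one s⟩
    exact Pool.Agent.Helper63.Mc.plus_subset proper h1
  have hconeNef : ∀ x ∈ cone S, x ∈ Y.Nef := by
    intro x hx
    exact cone_ind (p := fun x => x ∈ Y.Nef) (proper (Y := Y)).zero_mem
      (fun x y hx hy => Y.nef.add x hx y hy) (fun t x ht hx => Y.nef.smul t ht x hx) hSnef hx
  let M : AddSubmonoid (Fin Y.ρ → ℤ) :=
    { carrier := {D | real D ∈ cone S}
      add_mem' := by
        intro a b ha hb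
        change real (a + b) ∈ cone S
        rw [real_add]
        exact cone_add ha hb
      zero_mem' := by
        change real 0 ∈ cone S
        have : real (0 : Fin Y.ρ → ℤ) = 0 := by ext i; simp [real]
        rw [this]
        exact zero_mem_cone S }
  obtain ⟨G, hG, hgen⟩ := Pool.Agent.Helper63.Mc.graded_gen 𝒜 M
    {D | real D ∈ cone S ∧ real D ∈ interior Y.Nef} (fun D hD => hD.1)
    (hs.finite S fun s hs => ⟨hSnef s hs, by
      obtain ⟨D, hD⟩ := exists_real (hSi s hs); exact ⟨D, hD.symm⟩⟩)
  refine ⟨G, fun g hg => ?_, fun D hD s hsD => ?_⟩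
  · obtain ⟨D, hD, hgD⟩ := hG g hg
    exact ⟨D, hD.2, hgD⟩
  · have h1 : real D ∈ Plus Y.Nef :=
      Pool.Agent.Helper63.Mc.plus_self (interior_subset hD) (integral_real D)
    rw [hS] at h1
    simp only [Set.mem_iUnion, Set.mem_image] at h1
    obtain ⟨f, y, hy, hfy⟩ := h1
    have hyD : y = Y.pull f⁻¹ (real D) := by rw [← hfy, pull_inv_pull]
    obtain ⟨D', hD'⟩ := exists_real (Y.action.int f⁻¹ (real D) (integral_real D))
    obtain ⟨φ, hφ⟩ := h.lift f⁻¹
    have h2 : φ s ∈ 𝒜 D' := (hφ D D' hD' s).1 hsD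
    have h3 : D' ∈ {D | real D ∈ cone S ∧ real D ∈ interior Y.Nef} := by
      refine ⟨?_, ?_⟩
      · rw [hD', ← hyD]; exact hy
      · rw [hD']; exact pull_ample _ hD
    have h4 := hgen D' h3 _ h2
    have h5 : s ∈ (Submodule.span ℂ {x | ∃ g ∈ G, ∃ N ∈ M, ∃ r ∈ 𝒜 N, x = r * g}).map
        (φ.symm.toLinearMap : R →ₗ[ℂ] R) := ⟨φ s, h4, by simp⟩
    rw [Submodule.map_span] at h5
    refine Submodule.span_mono ?_ h5
    rintro _ ⟨_, ⟨g, hg, N, hN, r, hr, rfl⟩, rfl⟩
    obtain ⟨N', hN'⟩ := exists_real (Y.action.int f (real N) (integral_real N))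
    refine ⟨g, hg, f, φ.symm, hφ.symm, N', ?_, φ.symm r, (hφ.symm N N' hN' r).1 hr, ?_⟩
    · rw [hN']; exact Y.action.fst f _ (hconeNef _ hN)
    · simp

theorem nef_effective (h : IsCoxRing Y 𝒜) (hs : NefSemiample Y 𝒜) :
    ∀ D ∈ Y.Nef, Integral D → D ∈ Y.Eff := by
  intro x hx hxi
  obtain ⟨D, rfl⟩ := exists_real hxi
  obtain ⟨m, hm, hne⟩ := hs.section_mul D hx
  have h1 : real (m • D) ∈ Y.Eff := by
    rw [h.eff]
    exact ⟨{real (m • D)}, by simpa using ⟨m • D, rfl, hne⟩,
      mem_cone_self (Finset.mem_singleton_self _)⟩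
  have hmr : (0 : ℝ) < m := by exact_mod_cast hm
  have h2 := Y.eff.smul (m : ℝ)⁻¹ (by positivity) _ h1
  have h3 : (m : ℝ)⁻¹ • real (m • D) = real D := by
    ext i
    have h4 : (m • D) i = (m : ℤ) * D i := by rw [Pi.smul_apply, nsmul_eq_mul]
    simp only [real, Pi.smul_apply, smul_eq_mul, h4, Int.cast_mul, Int.cast_natCast]
    field_simp
  rwa [h3] at h2

/-- **The cone conjecture and the Cox ring.** Let `R` be the Cox ring of `Y`.

(1) If the ample ideal is generated by finitely many orbits of automorphisms, then `Aut(Y)` has a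
rational polyhedral fundamental domain on `Nef(Y)^+`.

(2) Assume that the nef classes are semiample (see `NefSemiample`). The statement of Q1 for `Y` holds if
and only if the ample ideal is generated by finitely many orbits of automorphisms. -/
theorem result (Y : KTrivial) {R : Type} [CommRing R] [Algebra ℂ R]
    (𝒜 : (Fin Y.ρ → ℤ) → Submodule ℂ R) [GradedAlgebra 𝒜] (h : IsCoxRing Y 𝒜) :
    (AmpleIdealFinite Y 𝒜 → HasDomain Y (Plus Y.Nef)) ∧
    (NefSemiample Y 𝒜 → (ConeConjecture Y ↔ AmpleIdealFinite Y 𝒜)) := by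
  have hY := MinimalAmpleClasses.result Y
  have h12 : HasDomain Y (Plus Y.Nef) ↔ FiniteMinimalAmple Y := hY.1.out 0 1
  refine ⟨fun hfin => h12.2 (finiteMinimalAmple h hfin), fun hs => ?_⟩
  rw [hY.2.1]
  constructor
  · rintro ⟨-, h2⟩
    exact ampleIdealFinite h hs (h12.2 h2)
  · intro hfin
    exact ⟨nef_effective h hs, finiteMinimalAmple h hfin⟩

end Pool.Agent.Results.MP_e49dc9_ag.CoxRingCriterion
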