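import Pool.Agent.Helper63.Mc.Final

/-!
# MP_e49dc9_ag: the cone conjecture and the minimal ample classes

Let `Y` be a smooth projective variety with `K_Y ≡ 0`. An ample integral class is called minimal if it
is not the sum of an ample integral class and a nonzero nef integral class. Every ample class is the
sum of a minimal one and of nef classes.

* `Aut(Y)` has a rational polyhedral fundamental domain on `Nef(Y)^+` if and only if the minimal ample
  classes form finitely many orbits of `Aut(Y)`. The statement of Q1 for `Y` is equivalent to: the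
  minimal ample classes form finitely many orbits, and all nef integral classes are effective.
* This is also equivalent to the same condition for the cone of curves: the integral classes of
  `N_1(Y)` in the interior of `NE(Y)` which are not the sum of such a class and a nonzero integral class
  in `NE(Y)` form finitely many orbits; and to the existence of a rational polyhedral fundamental
  domain on `NE(Y)^+`.
* If `deg` is an invariant of classes (for instance the degree `D ^ dim Y`) such that `Y` has, up to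
  automorphisms, only finitely many ample integral classes of degree at most `d`, for all `d` (for
  Calabi-Yau threefolds this is a theorem of Szendroi), it is equivalent to: the degrees of the minimal
  ample classes are bounded. There is no group in the last statement.

The proof. If the ample cone is covered by the translates of the cone generated by nef integral classes
`s_1, ..., s_r`, then a minimal ample class is, up to automorphisms, a combination of the `s_i` with
coefficients at most `1`. Conversely let `F` be a finite set of representatives of the minimal ample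
classes. A form in the interior of the dual cone `NE(Y)` takes its minimal value on the ample integral
classes at a minimal ample class, so `NE(Y)` has its interior covered by the translates of the cones
`σ(f)`, `f ∈ F`, of the forms which take their minimum at `f`. The new point is that these cones are
rational polyhedral (`Pool.Agent.Helper63.Mc.tanFG`): for an open convex cone `O`, a lattice `L` and
`f ∈ O ∩ L` the convex cone generated by `(O ∩ L) - f` is generated by finitely many elements; this is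
proved by induction on the dimension with simultaneous Diophantine approximation of the rays in the
closure of `O`. So `NE(Y)` satisfies the condition for the covering, and the first part of the proof
and duality finish the proof; exact fundamental domains come from the library theorem
`Pool.Agent.Y167.CData.domain`.

`Pool.Agent.Y167.cone S` is the convex cone generated by the finite set `S`.
-/

set_option autoImplicit false

namespace Pool.Agent.Results.MP_e49dc9_ag.MinimalAmpleClasses

open Pool.Agent.Y167 Matrix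

/-- The vector `x` has integral coordinates. -/
def Integral {ρ : ℕ} (x : Fin ρ → ℝ) : Prop := ∀ i, ∃ m : ℤ, x i = m

/-- `C` is a closed convex cone without lines and with nonempty interior. -/
structure IsProperCone {ρ : ℕ} (C : Set (Fin ρ → ℝ)) : Prop where
  closed : IsClosed C
  add : ∀ x ∈ C, ∀ y ∈ C, x + y ∈ C
  smul : ∀ t : ℝ, 0 ≤ t → ∀ x ∈ C, t • x ∈ C
  line : ∀ x ∈ C, -x ∈ C → x = 0
  int : (interior C).Nonempty

/-- `E` is a convex cone. -/
structure IsConvexCone {ρ : ℕ} (E : Set (Fin ρ → ℝ)) : Prop where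
  add : ∀ x ∈ E, ∀ y ∈ E, x + y ∈ E
  smul : ∀ t : ℝ, 0 ≤ t → ∀ x ∈ E, t • x ∈ E

/-- The group `A` acts on `ℝ^ρ` from the right by linear maps which preserve the set of integral
vectors and the sets `C` and `E`. -/
structure IsAction {ρ : ℕ} {A : Type} [Group A] (pull : A → (Fin ρ → ℝ) → (Fin ρ → ℝ))
    (C E : Set (Fin ρ → ℝ)) : Prop where
  lin : ∀ f, IsLinearMap ℝ (pull f)
  one : ∀ x, pull 1 x = x
  mul : ∀ f g x, pull (f * g) x = pull g (pull f x)
  int : ∀ f x, Integral x → Integral (pull f x)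
  fst : ∀ f, ∀ x ∈ C, pull f x ∈ C
  snd : ∀ f, ∀ x ∈ E, pull f x ∈ E

/-- `C^+`: the convex cone generated by the integral (equivalently, the convex hull of the rational)
vectors in `C`. -/
def Plus {ρ : ℕ} (C : Set (Fin ρ → ℝ)) : Set (Fin ρ → ℝ) :=
  {x | ∃ S : Finset (Fin ρ → ℝ), (∀ s ∈ S, Integral s ∧ s ∈ C) ∧ x ∈ cone S}

/-- The numerical data of a smooth projective variety `Y` over `ℂ` with `K_Y ≡ 0`. A basis of the
lattice of the classes of Cartier divisors identifies `N^1(Y)` with `ℝ^ρ` and this lattice with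
`ℤ^ρ`. -/
structure KTrivial where
  /-- the Picard number -/
  ρ : ℕ
  /-- the nef cone -/
  Nef : Set (Fin ρ → ℝ)
  /-- the effective cone -/
  Eff : Set (Fin ρ → ℝ)
  nef : IsProperCone Nef
  eff : IsConvexCone Eff
  /-- the ample classes are effective -/
  ample_eff : interior Nef ⊆ Eff
  /-- the known inclusion of `Nef(Y)^e` in `Nef(Y)^+` -/
  eff_plus : Nef ∩ Eff ⊆ Plus Nef
  /-- the group of automorphisms of `Y` -/
  Aut : Type
  [grp : Group Aut]
  /-- the pull-back of classes by an automorphism -/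
  pull : Aut → (Fin ρ → ℝ) → (Fin ρ → ℝ)
  action : IsAction pull Nef Eff

attribute [instance] KTrivial.grp

variable (Y : KTrivial)

/-- The group `Aut(Y)` has a rational polyhedral fundamental domain `cone S` on the cone `N`: (a) `N`
is the union of the cones `f^* (cone S)` and (b) the interiors of `cone S` and `f^* (cone S)` are
disjoint unless `f^* = id`. -/
def HasDomain (N : Set (Fin Y.ρ → ℝ)) : Prop :=
  ∃ S : Finset (Fin Y.ρ → ℝ), (∀ s ∈ S, Integral s) ∧
    N = ⋃ f : Y.Aut, Y.pull f '' cone S ∧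
    ∀ f : Y.Aut, (∃ x, Y.pull f x ≠ x) →
      interior (cone S) ∩ Y.pull f '' interior (cone S) = ∅

/-- The Kawamata–Morrison cone conjecture (the statement of Q1) for `Y`. -/
def ConeConjecture : Prop := HasDomain Y (Y.Nef ∩ Y.Eff)

/-- The class `D` is integral and ample. -/
def Ample (D : Fin Y.ρ → ℝ) : Prop := Integral D ∧ D ∈ interior Y.Nef

/-- `D` is a minimal ample class: it is integral and ample, and not the sum of an integral ample class
and of a nonzero integral nef class. -/
def MinimalAmple (D : Fin Y.ρ → ℝ) : Prop :=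
  Ample Y D ∧ ∀ A N, Ample Y A → Integral N → N ∈ Y.Nef → D = A + N → N = 0

/-- The closed cone of curves, the dual cone of `Nef(Y)`: the intersection pairing identifies `N_1(Y)`
with `ℝ^ρ`, such that the pairing of `D` and `c` is `D ⬝ᵥ c`, and `ℤ^ρ` are the forms on `N^1(Y)` which
are integral on the classes of Cartier divisors. -/
def Curves : Set (Fin Y.ρ → ℝ) := {c | ∀ D ∈ Y.Nef, 0 ≤ D ⬝ᵥ c}

/-- `c` is an integral element of the interior of the cone of curves, and not the sum of another one
and of a nonzero integral element of the cone of curves. -/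
def MinimalCurve (c : Fin Y.ρ → ℝ) : Prop :=
  (Integral c ∧ c ∈ interior (Curves Y)) ∧
    ∀ a b, Integral a → a ∈ interior (Curves Y) → Integral b → b ∈ Curves Y → c = a + b → b = 0

/-- `c'` is the push-forward `f_* c`. -/
def IsPush (f : Y.Aut) (c c' : Fin Y.ρ → ℝ) : Prop := ∀ D, Y.pull f D ⬝ᵥ c = D ⬝ᵥ c'

/-- The minimal ample classes form finitely many orbits of `Aut(Y)`. -/
def FiniteMinimalAmple : Prop :=
  ∃ F : Finset (Fin Y.ρ → ℝ), ∀ D, MinimalAmple Y D → ∃ f, Y.pull f D ∈ F

/-- The minimal elements of the cone of curves form finitely many orbits of `Aut(Y)`. -/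
def FiniteMinimalCurves : Prop :=
  ∃ F : Finset (Fin Y.ρ → ℝ), ∀ c, MinimalCurve Y c → ∃ f, ∃ c' ∈ F, IsPush Y f c c'

/-- `Aut(Y)` has a rational polyhedral fundamental domain `cone S` on `NE(Y)^+`. -/
def CurveDomain : Prop :=
  ∃ S : Finset (Fin Y.ρ → ℝ), (∀ s ∈ S, Integral s) ∧
    (∀ c, c ∈ Plus (Curves Y) ↔ ∃ f, ∃ c' ∈ cone S, IsPush Y f c c') ∧
    ∀ f : Y.Aut, (∃ x, Y.pull f x ≠ x) → ∀ c c', IsPush Y f c c' → c ∈ interior (cone S) →
      c' ∉ interior (cone S)

/-! ### Comparison with the library definitions -/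

section Bridge

open Pool.Agent.N165.KM Pool.Agent.Helper63.Mc

variable {Y}

/-- The pull-back as a linear automorphism. -/
def pb (f : Y.Aut) : (Fin Y.ρ → ℝ) ≃ₗ[ℝ] (Fin Y.ρ → ℝ) where
  toFun := Y.pull f
  map_add' := (Y.action.lin f).map_add
  map_smul' := (Y.action.lin f).map_smul
  invFun := Y.pull f⁻¹
  left_inv x := by rw [← Y.action.mul, mul_inv_cancel, Y.action.one]
  right_inv x := by rw [← Y.action.mul, inv_mul_cancel, Y.action.one]

theorem pb_mul (f g : Y.Aut) : pb (f * g) = pb g * pb f :=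
  LinearEquiv.ext fun x => Y.action.mul f g x

theorem pb_ne_one (f : Y.Aut) : pb f ≠ 1 ↔ ∃ x, Y.pull f x ≠ x := by
  constructor
  · intro h
    by_contra hcon
    push Not at hcon
    exact h (LinearEquiv.ext hcon)
  · rintro ⟨x, hx⟩ h
    exact hx (congrArg (fun l : (Fin Y.ρ → ℝ) ≃ₗ[ℝ] (Fin Y.ρ → ℝ) => l x) h)

theorem proper : Proper Y.Nef := ⟨Y.nef.closed, Y.nef.add, Y.nef.smul, Y.nef.line, Y.nef.int⟩

theorem pb_int (f : Y.Aut) (x : Fin Y.ρ → ℝ) (hx : x ∈ IntL Y.ρ) : pb f x ∈ IntL Y.ρ :=
  Y.action.int f x hx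

theorem pb_nef (f : Y.Aut) (x : Fin Y.ρ → ℝ) (hx : x ∈ Y.Nef) : pb f x ∈ Y.Nef :=
  Y.action.fst f x hx

theorem acts : Acts Y.Nef (rangeSub (pb_mul (Y := Y))) := acts_range pb_mul pb_int pb_nef

theorem curves_eq : Curves Y = Pool.Agent.Helper63.Mc.dual Y.Nef := rfl

theorem plus_eq {ρ : ℕ} (C : Set (Fin ρ → ℝ)) : Plus C = Cp (IntL ρ) C := rfl

theorem hasDomain_iff (N : Set (Fin Y.ρ → ℝ)) : HasDomain Y N ↔ HasFD (pb (Y := Y)) N := by
  constructor
  · rintro ⟨S, h1, h2, h3⟩
    exact ⟨S, h1, h2, fun f hf => h3 f ((pb_ne_one f).1 hf)⟩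
  · rintro ⟨S, h1, h2, h3⟩
    exact ⟨S, h1, h2, fun f hf => h3 f ((pb_ne_one f).2 hf)⟩

theorem isMin_iff (D : Fin Y.ρ → ℝ) : IsMin Y.Nef D ↔ MinimalAmple Y D := by
  constructor
  · rintro ⟨h1, h2, h3⟩
    exact ⟨⟨h2, h1⟩, fun A N hA hN hN' h => h3 A N hA.2 hA.1 hN' hN h⟩
  · rintro ⟨⟨h2, h1⟩, h3⟩
    exact ⟨h1, h2, fun A N hA hA' hN hN' h => h3 A N ⟨hA', hA⟩ hN' hN h⟩

theorem isMin_curve_iff (c : Fin Y.ρ → ℝ) : IsMin (Pool.Agent.Helper63.Mc.dual Y.Nef) c ↔ MinimalCurve Y c := by
  constructor
  · rintro ⟨h1, h2, h3⟩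
    exact ⟨⟨h2, h1⟩, fun a b ha ha' hb hb' h => h3 a b ha' ha hb' hb h⟩
  · rintro ⟨⟨h2, h1⟩, h3⟩
    exact ⟨h1, h2, fun a b ha ha' hb hb' h => h3 a b ha' ha hb' hb h⟩

theorem minFin_iff : MinFin Y.Nef (rangeSub (pb_mul (Y := Y))) ↔ FiniteMinimalAmple Y := by
  constructor
  · rintro ⟨F, hF⟩
    refine ⟨F, fun D hD => ?_⟩
    obtain ⟨_, ⟨f, rfl⟩, hf⟩ := hF D ((isMin_iff D).2 hD)
    exact ⟨f, hf⟩
  · rintro ⟨F, hF⟩
    refine ⟨F, fun D hD => ?_⟩
    obtain ⟨f, hf⟩ := hF D ((isMin_iff D).1 hD)
    exact ⟨pb f, ⟨f, rfl⟩, hf⟩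

theorem isPush_iff (f : Y.Aut) (c c' : Fin Y.ρ → ℝ) : IsPush Y f c c' ↔ contra (pb f) c' = c := by
  constructor
  · intro h
    apply dotProduct_eq_of_all
    intro D
    have h1 : pb f (pb f⁻¹ D) = D := pull_apply_inv pb_mul f D
    have h2 := h (pb f⁻¹ D)
    change pb f (pb f⁻¹ D) ⬝ᵥ c = _ at h2
    have h3 := contra_dot (pb f) (pb f⁻¹ D) c'
    rw [h1] at h2 h3
    rw [h3, h2]
  · rintro rfl D
    exact contra_dot (pb f) D c'

/-- The pull-back on the curve classes. -/
noncomputable def cb (f : Y.Aut) : (Fin Y.ρ → ℝ) ≃ₗ[ℝ] (Fin Y.ρ → ℝ) := contra (pb f)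

theorem contra_mul' (f g : Y.Aut) : cb (f * g) = cb g * cb f := by
  unfold cb
  rw [pb_mul, ← contraHom_apply, ← contraHom_apply, ← contraHom_apply, map_mul]

theorem range_contra : rangeSub (contra_mul' (Y := Y)) =
    (rangeSub (pb_mul (Y := Y))).map contraHom := by
  ext g
  constructor
  · rintro ⟨f, rfl⟩
    exact ⟨pb f, ⟨f, rfl⟩, rfl⟩
  · rintro ⟨_, ⟨f, rfl⟩, rfl⟩
    exact ⟨f, rfl⟩

theorem minFin_curve_iff : MinFin (Pool.Agent.Helper63.Mc.dual Y.Nef) ((rangeSub (pb_mul (Y := Y))).map contraHom) ↔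
    FiniteMinimalCurves Y := by
  rw [← range_contra]
  constructor
  · rintro ⟨F, hF⟩
    refine ⟨F, fun c hc => ?_⟩
    obtain ⟨_, ⟨f, rfl⟩, hf⟩ := hF c ((isMin_curve_iff c).2 hc)
    refine ⟨f⁻¹, _, hf, (isPush_iff _ _ _).2 ?_⟩
    exact pull_inv_apply (contra_mul' (Y := Y)) f c
  · rintro ⟨F, hF⟩
    refine ⟨F, fun c hc => ?_⟩
    obtain ⟨f, c', hc', hf⟩ := hF c ((isMin_curve_iff c).1 hc)
    refine ⟨contra (pb f⁻¹), ⟨f⁻¹, rfl⟩, ?_⟩
    rw [← (isPush_iff _ _ _).1 hf]
    have h1 := pull_inv_apply (contra_mul' (Y := Y)) f c'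
    change cb f⁻¹ (cb f c') ∈ F
    rwa [h1]

theorem contra_ne_one (f : Y.Aut) : contra (pb f) ≠ 1 ↔ pb f ≠ 1 := by
  rw [not_iff_not]
  constructor
  · intro h
    have h1 := congrArg contraHom h
    rw [contraHom_apply, contra_contra, map_one] at h1
    exact h1
  · intro h
    rw [h, ← contraHom_apply, map_one]

theorem curveDomain_iff : CurveDomain Y ↔
    HasFD (cb (Y := Y)) (Cp (IntL Y.ρ) (Pool.Agent.Helper63.Mc.dual Y.Nef)) := by
  constructor
  · rintro ⟨S, h1, h2, h3⟩
    refine ⟨S, h1, ?_, ?_⟩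
    · ext c
      simp only [Set.mem_iUnion, Set.mem_image]
      rw [← plus_eq, ← curves_eq, h2]
      constructor
      · rintro ⟨f, c', hc', hf⟩
        exact ⟨f, c', hc', (isPush_iff _ _ _).1 hf⟩
      · rintro ⟨f, c', hc', hf⟩
        exact ⟨f, c', hc', (isPush_iff _ _ _).2 hf⟩
    · intro f hf
      rw [Set.eq_empty_iff_forall_notMem]
      rintro c ⟨hc, c', hc', hcc'⟩
      exact h3 f ((pb_ne_one f).1 ((contra_ne_one f).1 hf)) c c' ((isPush_iff _ _ _).2 hcc') hc hc'
  · rintro ⟨S, h1, h2, h3⟩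
    refine ⟨S, h1, ?_, ?_⟩
    · intro c
      rw [curves_eq, plus_eq, h2]
      simp only [Set.mem_iUnion, Set.mem_image]
      constructor
      · rintro ⟨f, c', hc', hf⟩
        exact ⟨f, c', hc', (isPush_iff _ _ _).2 hf⟩
      · rintro ⟨f, c', hc', hf⟩
        exact ⟨f, c', hc', (isPush_iff _ _ _).1 hf⟩
    · intro f hf c c' hcc' hc hc'
      have h4 := h3 f ((contra_ne_one f).2 ((pb_ne_one f).2 hf))
      rw [Set.eq_empty_iff_forall_notMem] at h4
      exact h4 c ⟨hc, c', hc', (isPush_iff _ _ _).1 hcc'⟩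

end Bridge

/-- **The cone conjecture and minimal ample classes.** Let `Y` be a smooth projective variety with
`K_Y ≡ 0`.

(1) The following are equivalent: `Aut(Y)` has a rational polyhedral fundamental domain on `Nef(Y)^+`;
the minimal ample classes form finitely many orbits of `Aut(Y)`; the minimal integral elements of the
interior of the cone of curves form finitely many orbits; `Aut(Y)` has a rational polyhedral fundamental
domain on `NE(Y)^+`.

(2) The statement of Q1 for `Y` is equivalent to: all integral nef classes are effective, and the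
minimal ample classes form finitely many orbits of `Aut(Y)`.

(3) Let `deg` be an invariant function on the classes such that, for all `d`, the integral ample classes
`D` with `deg D ≤ d` form finitely many orbits of `Aut(Y)`. Then the minimal ample classes form
finitely many orbits if and only if their degrees are bounded. -/
theorem result (Y : KTrivial) :
    [HasDomain Y (Plus Y.Nef), FiniteMinimalAmple Y, FiniteMinimalCurves Y, CurveDomain Y].TFAE ∧
    (ConeConjecture Y ↔
      (∀ D ∈ Y.Nef, Integral D → D ∈ Y.Eff) ∧ FiniteMinimalAmple Y) ∧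
    ∀ deg : (Fin Y.ρ → ℝ) → ℝ, (∀ f D, deg (Y.pull f D) = deg D) →
      (∀ d : ℝ, ∃ F : Finset (Fin Y.ρ → ℝ), ∀ D, Ample Y D → deg D ≤ d → ∃ f, Y.pull f D ∈ F) →
      (FiniteMinimalAmple Y ↔ ∃ B : ℝ, ∀ D, MinimalAmple Y D → deg D ≤ B) := by
  classical
  refine ⟨?_, ?_, ?_⟩
  · tfae_have 1 ↔ 2 := by
      rw [hasDomain_iff, plus_eq, Pool.Agent.Helper63.Mc.hasFD_plus_iff proper pb_mul pb_int pb_nef,
        Pool.Agent.Helper63.Mc.cov_iff_minFin proper acts, minFin_iff]
    tfae_have 2 ↔ 3 := by
      rw [← minFin_iff, ← minFin_curve_iff, Pool.Agent.Helper63.Mc.minFin_dual_iff proper acts]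
    tfae_have 4 ↔ 3 := by
      rw [curveDomain_iff, ← minFin_curve_iff]
      have hd := (proper (Y := Y)).dual
      have had := (acts (Y := Y)).dual
      have hL : ∀ f : Y.Aut, ∀ x ∈ Pool.Agent.N165.KM.IntL Y.ρ,
          Pool.Agent.Helper63.Mc.contra (pb f) x ∈ Pool.Agent.N165.KM.IntL Y.ρ := fun f x hx =>
        had.int _ ⟨pb f, ⟨f, rfl⟩, rfl⟩ x hx
      have hC : ∀ f : Y.Aut, ∀ x ∈ Pool.Agent.Helper63.Mc.dual Y.Nef,
          Pool.Agent.Helper63.Mc.contra (pb f) x ∈ Pool.Agent.Helper63.Mc.dual Y.Nef := fun f x hx =>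
        had.cone _ ⟨pb f, ⟨f, rfl⟩, rfl⟩ x hx
      rw [Pool.Agent.Helper63.Mc.hasFD_plus_iff hd contra_mul' hL hC, range_contra,
        Pool.Agent.Helper63.Mc.cov_iff_minFin hd had]
    tfae_finish
  · have hs : Pool.Agent.N165.KM.Sandwich Y.Nef (Y.Nef ∩ Y.Eff) :=
      { closed := Y.nef.closed
        add := Y.nef.add
        smul := Y.nef.smul
        pointed := Y.nef.line
        int := Y.nef.int
        Nsub := fun x hx => hx.1
        Nint := fun x hx => ⟨interior_subset hx, Y.ample_eff hx⟩
        Nadd := fun x hx y hy => ⟨Y.nef.add x hx.1 y hy.1, Y.eff.add x hx.2 y hy.2⟩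
        Nsmul := fun t ht x hx => ⟨Y.nef.smul t ht x hx.1, Y.eff.smul t ht x hx.2⟩ }
    have h1 := Pool.Agent.Helper63.Mc.hasFD_iff (pull := pb (Y := Y)) proper hs
      (fun x hx => Y.eff_plus hx) pb_mul pb_int pb_nef
      (fun f x hx => ⟨Y.action.fst f x hx.1, Y.action.snd f x hx.2⟩)
    unfold ConeConjecture
    rw [hasDomain_iff, h1, minFin_iff]
    exact and_congr_left fun _ => ⟨fun h D hD hDi => (h D hD hDi).2, fun h D hD hDi => ⟨hD, h D hD hDi⟩⟩
  · intro deg hdeg hfin
    constructor
    · rintro ⟨F, hF⟩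
      refine ⟨∑ D ∈ F, |deg D|, fun D hD => ?_⟩
      obtain ⟨f, hf⟩ := hF D hD
      rw [← hdeg f D]
      exact (le_abs_self _).trans (Finset.single_le_sum (f := fun D => |deg D|)
        (fun _ _ => abs_nonneg _) hf)
    · rintro ⟨B, hB⟩
      obtain ⟨F, hF⟩ := hfin B
      exact ⟨F, fun D hD => hF D hD.1 (hB D hD)⟩

end Pool.Agent.Results.MP_e49dc9_ag.MinimalAmpleClasses
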